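import Pool.Agent.V7H28.Cl.Classes

set_option autoImplicit false

/-!
# Bounded clusters of even squarefree congruent numbers in every even residue class

For every `q` there is `C` such that for every even squarefree `k` (so for all even classes modulo `8 q`
that contain squarefree numbers, in particular for the class `2` modulo `8`) and all `K`
there are many intervals of length `C K ^ 4`, which does not depend on their position, that contain
`K` squarefree congruent numbers of the class of `k`: their lower ends `N` occur in every interval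
`[X, X + Y]` with `C (X ^ (11/12) + K X ^ (7/8)) ≤ Y ≤ X`, at least `Y / (C X ^ (3/4))` times. So there
are at least `c X ^ (1/4)` of them between `X` and `2 X`, for `K` up to `c X ^ (1/8)`.

Proof.  Let `m` be squarefree, `m ≡ - k` modulo `8 q`. For a fixed `t` all the numbers
`m ^ 3 t ^ 4 - m s ^ 4 = m (m t ^ 2 - s ^ 2) (m t ^ 2 + s ^ 2)`, `s < t`, are congruent (the triangle of
`m t ^ 2` and `s ^ 2`, divided by `s t`), and for `s = Q j + 1`, `j ≤ J`, they are close to each other
and `≡ k`, if `t` is divisible by `Q`, `8 q m ∣ Q`. Let `Q` be divisible by all primes up to `40`. For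
a positive proportion of the `t` in an interval a positive proportion of these numbers is squarefree:
one counts the pairs `(t, s)` for which `p ^ 2` divides the number. For `p ≤ P` this is elementary
(pairs with `p ∣ t, s` are counted together). For `p > P` one has `m t ^ 2 ± s ^ 2 = l p ^ 2` with
small `l`, and for fixed `l` and `s` two solutions `(t, p)`, `(t', p')` have the determinant
`t p' - t' p = O (s ^ 2 / sqrt l)`, with at most one solution for each value of the determinant.
(helper28)
-/

namespace Pool.Agent.Results.MP_f126a2_nt.BoundedClustersH28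

/-- `n` is the area of a right triangle with rational sides -/
def IsCongruent (n : ℕ) : Prop :=
  ∃ a b c : ℚ, 0 < a ∧ 0 < b ∧ 0 < c ∧ a ^ 2 + b ^ 2 = c ^ 2 ∧ (n : ℚ) = a * b / 2

/-- the interval `[N, N + L]` contains at least `K` even squarefree congruent numbers which are
congruent to `k` modulo `8 q` -/
def Cluster (q k K N : ℕ) (L : ℝ) : Prop :=
  K ≤ {n : ℕ | N ≤ n ∧ (n : ℝ) ≤ N + L ∧ n ≡ k [MOD 8 * q] ∧ Even n ∧ Squarefree n ∧
    IsCongruent n}.ncard

/-- **Bounded clusters of even squarefree congruent numbers in every even class.** For every `q ≥ 1`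
there is `C` such that for all even squarefree `k`, all real `X ≥ 1`, all `K ≥ 1` and all `Y` with
`C (X ^ (11/12) + K X ^ (7/8)) ≤ Y ≤ X` at least `Y / (C X ^ (3/4))` integers `N` in `[X, X + Y]` are
such that `[N, N + C K ^ 4]` contains at least `K` even squarefree congruent numbers `n ≡ k`
modulo `8 q`. -/
theorem result (q : ℕ) (hq : 0 < q) : ∃ C : ℝ, 1 ≤ C ∧ ∀ k : ℕ, Squarefree k → Even k →
    ∀ (X Y : ℝ) (K : ℕ), 1 ≤ X → 1 ≤ K →
      C * (X ^ (11 / 12 : ℝ) + K * X ^ (7 / 8 : ℝ)) ≤ Y → Y ≤ X →
        Y / (C * X ^ (3 / 4 : ℝ)) ≤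
          (({N : ℕ | X ≤ N ∧ (N : ℝ) ≤ X + Y ∧ Cluster q k K N (C * (K : ℝ) ^ 4)}.ncard : ℕ) : ℝ) := by
  obtain ⟨C, hC, h⟩ := Pool.Agent.V7H28.Cl.main (8 * q) (by positivity)
  refine ⟨C, hC, ?_⟩
  intro k hk hko X Y K hX hK hY hYX
  refine (h k hk X Y K hX hK hY hYX).trans ?_
  apply Nat.cast_le.2
  apply Set.ncard_le_ncard
  · rintro N ⟨a1, a2, a3⟩
    refine ⟨a1, a2, a3.trans (Set.ncard_le_ncard ?_ ?_)⟩
    · rintro n ⟨b1, b2, b3, b4, b5⟩
      refine ⟨b1, b2, b3, ?_, b4, b5⟩
      have b6 : n ≡ k [MOD 2] := b3.of_dvd ⟨4 * q, by ring⟩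
      have b7 : n % 2 = k % 2 := b6
      rw [Nat.even_iff] at hko ⊢
      omega
    · apply (Set.finite_Iic ⌊(N : ℝ) + C * (K : ℝ) ^ 4⌋₊).subset
      intro n hn
      exact Nat.le_floor hn.2.1
  · apply (Set.finite_Iic ⌊X + Y⌋₊).subset
    intro N hN
    exact Nat.le_floor hN.2.1

end Pool.Agent.Results.MP_f126a2_nt.BoundedClustersH28
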