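import Pool.Agent.V7H64.CG.Fin
set_option autoImplicit false

/-!
# Even squarefree congruent numbers in residue classes to large moduli

For all `q ≤ X ^ (1/4 - ε)` every even residue class modulo `8 q` which contains squarefree numbers
contains at least `X ^ (1/2 - ε) / q` even squarefree congruent numbers `n ≤ X`; the least one is at
most `C q ^ (4 + ε)`.

Proof.  `n = x y (x ^ 2 - D ^ 2 y ^ 2)` is congruent if `D` is a square; `D` is divisible by all
primes below `300` and by no other prime.  Let `b` be squarefree and `N` the product of the modulus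
and of the squares of all primes `p ≤ δ log X`.  The curve `x y (x ^ 2 - D ^ 2 y ^ 2) = b` has at
least `N / K ^ ω(N)` points modulo `N` with `x` a unit, whose fibres over `x`, `x ± D y` have at
most `K ^ ω(N)` elements and over `y` at most `K ^ ω(N) g`, `g` the product of the primes dividing
`b` and `N`: for `p ∤ b` this uses the mean square of the sums of the characters
`χ (t (t ^ 2 - k))` of order dividing `4` over `k`, for `p ∣ b` the solutions with `p ∣ y`.  The box
`x ∈ (D N h, (D + 1) N h]`, `y ≤ N h` with `(D + 1) N h ≤ X ^ (1/4)` contains `h ^ 2` pairs for every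
point, and squares of the remaining primes are sieved out, uniformly in the modulus, by counting
the pairs with `p ^ 2 ∣ x`, `y`, `x ± D y` over the fibres.
-/

namespace Pool.Agent.Results.MP_f126a2_nt.LargeModuliH64

/-- `n` is the area of a right triangle with rational sides -/
def IsCongruent (n : ℕ) : Prop :=
  ∃ a b c : ℚ, 0 < a ∧ 0 < b ∧ 0 < c ∧ a ^ 2 + b ^ 2 = c ^ 2 ∧ (n : ℚ) = a * b / 2

/-- **Even squarefree congruent numbers in all classes to large moduli.** -/
theorem result (ε : ℝ) (hε : 0 < ε) :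
    (∃ X₀ : ℝ, ∀ X : ℝ, X₀ ≤ X → ∀ q a : ℕ, 1 ≤ q → (q : ℝ) ≤ X ^ (1 / 4 - ε) →
      Even a → Squarefree (Nat.gcd a (8 * q)) →
        X ^ (1 / 2 - ε) / q ≤ ({n : ℕ | (n : ℝ) ≤ X ∧ Squarefree n ∧ Even n ∧
          n ≡ a [MOD 8 * q] ∧ IsCongruent n}.ncard : ℝ)) ∧
    (∃ C : ℝ, ∀ q a : ℕ, 1 ≤ q → Even a → Squarefree (Nat.gcd a (8 * q)) →
        ∃ n : ℕ, (n : ℝ) ≤ C * (q : ℝ) ^ (4 + ε) ∧ Squarefree n ∧ Even n ∧
          n ≡ a [MOD 8 * q] ∧ IsCongruent n) := by
  have hpar : ∀ q a n : ℕ, n ≡ a [MOD 8 * q] → Even a → Even n := by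
    intro q a n h1 h2
    have h3 : n % 2 = a % 2 := h1.of_dvd ⟨4 * q, by ring⟩
    rw [Nat.even_iff] at h2 ⊢
    omega
  constructor
  · obtain ⟨s, hs, X₀, -, h⟩ := Pool.Agent.V7H64.CG.many ε hε
    refine ⟨X₀, fun X hX q a hq hqX hpa ha => ?_⟩
    obtain ⟨S, hS1, hS2⟩ := h X hX q a hq hqX ha
    refine hS1.trans ?_
    have hfin : {n : ℕ | (n : ℝ) ≤ X ∧ Squarefree n ∧ Even n ∧ n ≡ a [MOD 8 * q] ∧
        IsCongruent n}.Finite := by
      apply (Set.finite_Iic ⌊X⌋₊).subset
      intro n hn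
      exact Nat.le_floor hn.1
    have hsub : (S : Set ℕ) ⊆ {n : ℕ | (n : ℝ) ≤ X ∧ Squarefree n ∧ Even n ∧
        n ≡ a [MOD 8 * q] ∧ IsCongruent n} := by
      intro n hn
      obtain ⟨m1, m2, m3, m4⟩ := hS2 n (Finset.mem_coe.1 hn)
      exact ⟨m1, m2, hpar q a n m3 hpa, m3, Pool.Agent.V7H64.CG.cong_rat hs m4⟩
    have h1 := Set.ncard_le_ncard hsub hfin
    rw [Set.ncard_coe_finset] at h1
    exact_mod_cast h1
  · obtain ⟨s, hs, C, -, h⟩ := Pool.Agent.V7H64.CG.least ε hε
    refine ⟨C, fun q a hq hpa ha => ?_⟩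
    obtain ⟨n, m1, m2, m3, m4⟩ := h q a hq ha
    exact ⟨n, m1, m2, hpar q a n m3 hpa, m3, Pool.Agent.V7H64.CG.cong_rat hs m4⟩

end Pool.Agent.Results.MP_f126a2_nt.LargeModuliH64
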