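import Mathlib
import Pool.Agent.V7H99.LG.S11

set_option autoImplicit false

/-!
# At least `c √X (log X)⁴` even squarefree congruent numbers in every class

Let `a` modulo `2 M` be a residue class which contains an even squarefree number (for example
`a = 2`, `2 M = 8`).  For all large `X`

1. at least `c √X (log X) ^ 4` even squarefree congruent numbers `n ≤ X` satisfy `n ≡ a` modulo
   `2 M`;
2. at least `c √X` of them have the form `n = (a, 2 M) m`, where `m` has at most `R` prime factors,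
   all of them larger than `X ^ (1 / R)`.

By Tunnell's theorem (not used) all these `n` satisfy `2 |C_n| = |D_n|`.

Proof.  Let `W` be a suitable multiple of `2 M` and `g = (a, 2 M)`.  For small `A, B, C, F, s₁, t₁`
(at most `X ^ δ`, pairwise coprime, `≡ 1` modulo `W`, `s₁, t₁` squarefree) put
`u = g W² A² s₁ s`, `v = B² t₁ t` with `s, t` without prime factors below `X ^ δ`,
`u - v = C² d`, `u + v = F² e`; if `d, e` are squarefree then `n = g s₁ s t₁ t d e` is a squarefree
number with `n (W A B C F)² = u v (u - v) (u + v)`, hence congruent.  The sieve (fundamental lemma)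
gives `≫ √X / (A B C F s₁ t₁ (log X) ^ 2)` pairs `(s, t)` with `n ≤ X`, and the sum over the six
small parameters is `≫ √X (log X) ^ 4`.  Every `n` is obtained a bounded number of times: `s` and
`t` are products of prime factors of `n` larger than `X ^ δ`, so that there are `O(1)` pairs
`(s, t)`, and `n, s, t` determine the six parameters (if two sextuples give the same `n` then `t²`
divides a number which is smaller than `t²`, hence zero).  For the almost primes `s₁ = t₁ = 1` and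
`d, e` are sifted as well.
-/

namespace Pool.Agent.Results.MP_f126a2_nt.SquareRootLogFourH99

/-- `n` is the area of a right triangle with rational sides -/
def IsCongruent (n : ℕ) : Prop :=
  ∃ a b c : ℚ, 0 < a ∧ 0 < b ∧ 0 < c ∧ a ^ 2 + b ^ 2 = c ^ 2 ∧ (n : ℚ) = a * b / 2

/-- `m` has at most `R` prime factors (with multiplicity), all of them larger than `X ^ (1 / R)` -/
def AlmostPrime (R : ℕ) (X : ℝ) (m : ℕ) : Prop :=
  m.primeFactorsList.length ≤ R ∧
    ∀ p : ℕ, p.Prime → p ∣ m → X ^ (1 / (R : ℝ)) < (p : ℝ)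

/-- **At least `c √X (log X)⁴` even squarefree congruent numbers in every class.** -/
theorem result (M a : ℕ) (hM : 0 < M) (ha : ∃ s : ℕ, Squarefree s ∧ Even s ∧ s ≡ a [MOD 2 * M]) :
    (∃ c : ℝ, 0 < c ∧ ∃ X₀ : ℝ, ∀ X : ℝ, X₀ ≤ X →
      c * Real.sqrt X * Real.log X ^ 4 ≤ ({n : ℕ | (n : ℝ) ≤ X ∧ Squarefree n ∧ Even n ∧
        n ≡ a [MOD 2 * M] ∧ IsCongruent n}.ncard : ℝ)) ∧
    (∃ c : ℝ, 0 < c ∧ ∃ R : ℕ, 1 ≤ R ∧ ∃ X₀ : ℝ, ∀ X : ℝ, X₀ ≤ X →
      c * Real.sqrt X ≤ ({n : ℕ | (n : ℝ) ≤ X ∧ Squarefree n ∧ Even n ∧ n ≡ a [MOD 2 * M] ∧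
        IsCongruent n ∧ ∃ m, n = Nat.gcd a (2 * M) * m ∧ AlmostPrime R X m}.ncard : ℝ)) := by
  obtain ⟨s, hs, hso, hsa⟩ := ha
  have hgs : Nat.gcd a (2 * M) = Nat.gcd s (2 * M) := hsa.gcd_eq.symm
  have hgd : Nat.gcd a (2 * M) ∣ s := by rw [hgs]; exact Nat.gcd_dvd_left _ _
  have hgsq : Squarefree (Nat.gcd a (2 * M)) := hs.squarefree_of_dvd hgd
  have hge : Even (Nat.gcd a (2 * M)) := by
    rw [hgs, even_iff_two_dvd]
    exact Nat.dvd_gcd (even_iff_two_dvd.1 hso) (dvd_mul_right 2 M)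
  constructor
  · obtain ⟨c, hc, X₀, h⟩ := Pool.Agent.V7H99.LG.many a (2 * M) (by omega) hgsq
    refine ⟨c, hc, X₀, fun X hX => (h X hX).trans ?_⟩
    apply Nat.cast_le.2
    apply Set.ncard_le_ncard
    · rintro n ⟨h1, h2, h3, h4, k, h5, h6⟩
      exact ⟨h1, h2, by rw [h5]; exact hge.mul_right k, h3, h4⟩
    · apply (Set.finite_Iic ⌊X⌋₊).subset
      intro n hn
      exact Nat.le_floor hn.1
  · obtain ⟨c, hc, R, hR, X₀, h⟩ := Pool.Agent.V7H99.LG.many_ap a (2 * M) (by omega) hgsq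
    refine ⟨c, hc, R, hR, X₀, fun X hX => (h X hX).trans ?_⟩
    apply Nat.cast_le.2
    apply Set.ncard_le_ncard
    · rintro n ⟨h1, h2, h3, h4, k, h5, h6, h7, h8⟩
      exact ⟨h1, h2, by rw [h5]; exact hge.mul_right k, h3, h4, k, h5, h7, h8⟩
    · apply (Set.finite_Iic ⌊X⌋₊).subset
      intro n hn
      exact Nat.le_floor hn.1

end Pool.Agent.Results.MP_f126a2_nt.SquareRootLogFourH99
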